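import Mathlib
import Pool.Agent.H52.STD.Va9

set_option autoImplicit false

/-!
# The standard maps are almost ergodic, down to exponentially small scales

Let `S_a (x, y) = (2x - y + a sin 2πx, x)` on the torus, `|a| ≥ 1`; no parameter is excluded. By a
function of variation at most `V` we mean a limit in the mean of continuously differentiable
functions bounded by one whose partial derivatives have norm at most `V` in `L¹`; a Borel set has
perimeter at most `V` if its indicator function has variation at most `V` (this is the case for the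
sets of perimeter `V` in the sense of De Giorgi). It is proved:

1. decorrelation of functions of bounded variation with the rate
   `K (n (1 + log |a|) / a² + 1 / √|a|)` at the time `n`, as soon as the variation is at most
   `|a| ^ (n / 64)`;
2. eigenfunctions of the iterates of `S_a`, in particular invariant functions, of variation at most
   `V` are constant up to an error `K ((k (1 + log |a|) + log (2 + V)) / a² + 1 / √|a|)` in the
   mean square;
3. a Borel set which is invariant under some iterate `S_a^k`, `k ≤ δ a² / (K (1 + log |a|))`, and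
   has measure between `δ` and `1 - δ` has perimeter at least `exp (δ a² / K)`, if `|a|` is large
   compared with `1 / δ²`;
4. the time averages over ANY number `n` of steps (there is no upper limit for `n`) of a function of
   variation at most `V` differ from the space average by at most
   `K ((1 + log (2 + V) / (1 + log |a|)) / n + √(log (2 + V)) / |a| + 1 / √|a|)` in the mean square;
5. for square integrable functions, mixing up to the times `o(a² / log |a|)` and convergence of the
   time averages uniformly in all large times `n` and all large parameters `a`.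
-/

namespace Pool.Agent.Results.MP_9ee088_an.AlmostErgodic

open Real MeasureTheory Function Filter Topology

/-- the torus -/
abbrev Torus : Type := UnitAddCircle × UnitAddCircle

/-- `T` is the standard map with parameter `a` -/
def IsStandardMap (a : ℝ) (T : Torus → Torus) : Prop :=
  ∀ x y : ℝ, T ((x : UnitAddCircle), (y : UnitAddCircle)) =
    (((2 * x - y + a * sin (2 * π * x) : ℝ) : UnitAddCircle), (x : UnitAddCircle))

/-- continuously differentiable functions on the torus, bounded by one, such that the integrals of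
the absolute values of the two partial derivatives are at most `V` -/
structure SmoothWithVariation (V : ℝ) (φ : Torus → ℝ) : Prop where
  smooth : ContDiff ℝ 1 fun z : ℝ × ℝ => φ ((z.1 : UnitAddCircle), (z.2 : UnitAddCircle))
  bound : ∀ p, |φ p| ≤ 1
  first : ∫ y in (0:ℝ)..1, ∫ x in (0:ℝ)..1,
    |deriv (fun s : ℝ => φ ((s : UnitAddCircle), (y : UnitAddCircle))) x| ≤ V
  second : ∫ x in (0:ℝ)..1, ∫ y in (0:ℝ)..1,
    |deriv (fun s : ℝ => φ ((x : UnitAddCircle), (s : UnitAddCircle))) y| ≤ V

/-- Borel functions bounded by one which are limits in the mean of such functions -/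
structure VariationAtMost (V : ℝ) (f : Torus → ℝ) : Prop where
  measurable : Measurable f
  bound : ∀ p, |f p| ≤ 1
  approx : ∀ ε : ℝ, 0 < ε → ∃ φ : Torus → ℝ, SmoothWithVariation V φ ∧ ∫ p, |f p - φ p| ≤ ε

/-- sets whose indicator function has variation at most `V` -/
def PerimeterAtMost (V : ℝ) (B : Set Torus) : Prop := VariationAtMost V (B.indicator fun _ => 1)

theorem conv {V : ℝ} {f : Torus → ℝ} (h : VariationAtMost V f) : H52.STD.BVf V f :=
  ⟨h.measurable, h.bound, fun ε hε => by
    obtain ⟨φ, hφ, h1⟩ := h.approx ε hε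
    exact ⟨φ, ⟨hφ.smooth, hφ.bound, hφ.first, hφ.second⟩, h1⟩⟩

theorem result :
    -- decorrelation of functions of bounded variation
    (∃ K : ℝ, ∀ (a : ℝ) (T : Torus → Torus), 1 ≤ |a| → IsStandardMap a T → ∀ n : ℕ, 3 ≤ n →
      ∀ (V : ℝ) (f g : Torus → ℝ), VariationAtMost V f → VariationAtMost V g →
        |(∫ p, f (T^[n] p) * g p) - (∫ p, f p) * ∫ p, g p| ≤
          K * (1 + V * (1 / 2) ^ (n / 2)) * (n * (1 + log |a|) / a ^ 2 + 1 / √|a|) ∧
        (40 ≤ n → |(∫ p, f (T^[n] p) * g p) - (∫ p, f p) * ∫ p, g p| ≤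
          K * (1 + V * |a| ^ (-((n : ℝ) / 64))) * (n * (1 + log |a|) / a ^ 2 + 1 / √|a|))) ∧
    -- eigenfunctions of the iterates, in particular (for `l = 1`) invariant functions
    (∃ K : ℝ, ∀ (a : ℝ) (T : Torus → Torus), 1 ≤ |a| → IsStandardMap a T → ∀ k : ℕ, 1 ≤ k →
      ∀ (V : ℝ) (l : ℂ) (f : Torus → ℂ), ‖l‖ = 1 → VariationAtMost V (fun p => (f p).re) →
        VariationAtMost V (fun p => (f p).im) → (∀ᵐ p, f (T^[k] p) = l * f p) →
        ∫ p, ‖f p - ∫ q, f q‖ ^ 2 ≤
          K * ((k * (1 + log |a|) + log (2 + V)) / a ^ 2 + 1 / √|a|)) ∧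
    -- invariant sets
    (∃ K : ℝ, 1 ≤ K ∧ ∀ (a : ℝ) (T : Torus → Torus) (k : ℕ) (δ : ℝ), IsStandardMap a T → 0 < δ →
      (K / δ) ^ 2 ≤ |a| → 1 ≤ k → K * (k * (1 + log |a|)) ≤ δ * a ^ 2 →
      ∀ (V : ℝ) (B : Set Torus), PerimeterAtMost V B → (∀ᵐ p, T^[k] p ∈ B ↔ p ∈ B) →
        δ ≤ volume.real B → volume.real B ≤ 1 - δ → exp (δ * a ^ 2 / K) ≤ V) ∧
    -- time averages at all times
    (∃ K : ℝ, ∀ (a : ℝ) (T : Torus → Torus), 1 ≤ |a| → IsStandardMap a T →
      ∀ (V : ℝ) (f : Torus → ℝ), VariationAtMost V f → ∀ n : ℕ, 1 ≤ n →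
        ∫ p, ((1 / (n : ℝ)) * ∑ k ∈ Finset.range n, f (T^[k] p) - ∫ q, f q) ^ 2 ≤
          K * ((1 + log (2 + V) / (1 + log |a|)) / n + √(log (2 + V)) / |a| + 1 / √|a|)) ∧
    -- square integrable functions: mixing
    (∀ F G : Torus → ℝ, MemLp F 2 volume → MemLp G 2 volume → ∀ ε : ℝ, 0 < ε →
      ∃ A δ : ℝ, 1 ≤ A ∧ 0 < δ ∧ ∀ (a : ℝ) (T : Torus → Torus), A ≤ |a| → IsStandardMap a T →
        ∀ n : ℕ, 2 ≤ n → (n : ℝ) * log |a| ≤ δ * a ^ 2 →
          |(∫ p, F (T^[n] p) * G p) - (∫ p, F p) * ∫ p, G p| ≤ ε) ∧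
    -- square integrable functions: time averages at all large times
    (∀ F : Torus → ℝ, MemLp F 2 volume → ∀ ε : ℝ, 0 < ε →
      ∃ (A : ℝ) (N : ℕ), 1 ≤ A ∧ ∀ (a : ℝ) (T : Torus → Torus), A ≤ |a| → IsStandardMap a T →
        ∀ n : ℕ, N ≤ n →
          ∫ p, ((1 / (n : ℝ)) * ∑ k ∈ Finset.range n, F (T^[k] p) - ∫ q, F q) ^ 2 ≤ ε) := by
  have hT' : ∀ (a : ℝ) (T : Torus → Torus), IsStandardMap a T → ∀ n : ℕ,
      T^[n] = H52.STD.cs (fun _ => a) n := by
    intro a T hT n
    rw [H52.STD.cs_const, H52.STD.std_eq hT]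
  refine ⟨?_, ?_, ?_, ?_, ?_, ?_⟩
  · obtain ⟨K, _, hK⟩ := H52.STD.bv_est
    refine ⟨K, fun a T ha hT n hn V f g hf hg => ?_⟩
    rw [hT' a T hT]
    exact hK a n ha hn V f g (conv hf) (conv hg)
  · obtain ⟨K, _, hK⟩ := H52.STD.eig_est
    refine ⟨K, fun a T ha hT k hk V l f hl hu hv hinv => ?_⟩
    rw [hT' a T hT] at hinv
    exact hK a k ha hk V l f hl (conv hu) (conv hv) hinv
  · obtain ⟨K, hK1, hK⟩ := H52.STD.inv_exp
    refine ⟨K, hK1, fun a T k δ hT hδ hbig hk hkl V B hB hinv h1 h2 => ?_⟩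
    rw [hT' a T hT] at hinv
    exact hK a k δ hδ hbig hk hkl V B (conv hB) hinv h1 h2
  · obtain ⟨K, _, hK⟩ := H52.STD.avg_est
    refine ⟨K, fun a T ha hT V f hf n hn => ?_⟩
    simp_rw [hT' a T hT]
    exact hK a ha V f (conv hf) n hn
  · intro F G hF hG ε hε
    obtain ⟨A, δ, hA, hδ, h⟩ := H52.STD.one_mixing hF hG hε
    refine ⟨A, δ, hA, hδ, fun a T ha hT n hn hnl => ?_⟩
    rw [hT' a T hT]
    exact h a n ha hn hnl
  · intro F hF ε hε
    obtain ⟨A, N, hA, h⟩ := H52.STD.all_lln hF hε
    refine ⟨A, N, hA, fun a T ha hT n hn => ?_⟩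
    simp_rw [hT' a T hT]
    exact h a n ha hn

end Pool.Agent.Results.MP_9ee088_an.AlmostErgodic
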