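import Mathlib
import Pool.Agent.H52.STD.Sq10

set_option autoImplicit false

/-!
# Compositions of standard maps with increasing coefficients, beyond the Borel-Cantelli barrier

Let `S_a (x, y) = (2x - y + a sin 2πx, x)` on the torus, with area `m`. Since nothing is known on
the ergodic properties of a single `S_a` for all times, Blumenthal proposed to study the
compositions `S_(a_(n-1)) ∘ … ∘ S_(a_0)` with `|a_k| → ∞` as a problem of intermediate difficulty.
Hyperbolicity is lost when the orbit meets the strip `|cos 2πx| ≲ 1/|a_k|` of area about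
`1/|a_k|`; if `∑ 1/|a_k| < ∞` then almost every orbit meets the strips only finitely often, and
this is the range (for fast polynomial growth of `a_k`) in which the compositions were studied.

Here the coefficients only satisfy `|a_k| → ∞` and
`∑ (1 + log |a_k a_(k+1)|) / |a_k a_(k+1)| < ∞`, for instance `|a_k| ≥ c k^(1/2 + δ)`, so that the
areas of the strips need not be summable (`a_k = k^(3/4)`) and the passages through the strips
cannot be discarded. It is proved that

* the composition is mixing: the correlations of ALL square integrable observables tend to zero as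
  the number `n` of maps tends to infinity, uniformly in the starting time `m`;
* the ergodic averages of every square integrable observable converge in `L²` to its integral;
* at almost every point `p`, `log ‖D(S_(a_(n-1)) ∘ … ∘ S_(a_0))(p)‖ / ∑_(k<n) log |a_k| → 1`: the
  exponent exists and has the largest possible value;
* if `|a_k| ≥ c k^(1/2 + δ)` then almost every orbit is equidistributed on the torus.

The first part is a decay of correlations with a rate for arbitrary coefficients of modulus at
least one and continuously differentiable observables.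
-/

namespace Pool.Agent.Results.MP_9ee088_an.BeyondTheStrip

open Real MeasureTheory Function Filter Topology

/-- the torus -/
abbrev Torus : Type := UnitAddCircle × UnitAddCircle

/-- `T` is the standard map with parameter `a` -/
def IsStandardMap (a : ℝ) (T : Torus → Torus) : Prop :=
  ∀ x y : ℝ, T ((x : UnitAddCircle), (y : UnitAddCircle)) =
    (((2 * x - y + a * sin (2 * π * x) : ℝ) : UnitAddCircle), (x : UnitAddCircle))

/-- the composition `T_(m + n - 1) ∘ … ∘ T_(m + 1) ∘ T_m` of `n` maps, started at time `m` -/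
def compose (T : ℕ → Torus → Torus) (m : ℕ) : ℕ → Torus → Torus
  | 0 => id
  | n + 1 => T (m + n) ∘ compose T m n

/-- the lift of the standard map to the plane -/
noncomputable def planeMap (a : ℝ) (p : ℝ × ℝ) : ℝ × ℝ :=
  (2 * p.1 - p.2 + a * sin (2 * π * p.1), p.1)

/-- the composition of the first `n` lifts -/
noncomputable def planeCompose (a : ℕ → ℝ) : ℕ → ℝ × ℝ → ℝ × ℝ
  | 0 => id
  | n + 1 => planeMap (a n) ∘ planeCompose a n

/-- continuously differentiable observables on the circle, bounded by one, with derivative at most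
`M` -/
structure Observable (M : ℝ) (f : UnitAddCircle → ℝ) : Prop where
  smooth : ContDiff ℝ 1 fun t : ℝ => f (t : UnitAddCircle)
  bound : ∀ x, |f x| ≤ 1
  deriv_bound : ∀ t, |deriv (fun s : ℝ => f (s : UnitAddCircle)) t| ≤ M

/-- the weight of two consecutive coefficients -/
noncomputable def weight (α β : ℝ) : ℝ := (1 + log (|α| * |β|)) / (|α| * |β|)

theorem result :
    -- decay of correlations for arbitrary coefficients
    (∃ K : ℝ, ∀ (a : ℕ → ℝ) (n : ℕ), 2 ≤ n → (∀ k < n, 1 ≤ |a k|) →
      ∀ T : ℕ → Torus → Torus, (∀ k, IsStandardMap (a k) (T k)) →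
      ∀ (M : ℝ) (f g u v : UnitAddCircle → ℝ), 0 ≤ M → Observable M f → Observable M g →
        Observable M u → Observable M v →
        |(∫ p : Torus, f (compose T 0 n p).1 * g (compose T 0 n p).2 * (u p.1 * v p.2)) -
          (∫ x, f x) * (∫ x, g x) * ((∫ x, u x) * ∫ x, v x)| ≤
        K * (1 + M) * (√(∑ k ∈ Finset.range (n - 1), weight (a k) (a (k + 1))) +
          1 / √|a (n - 1)| + 1 / √|a (n - 2)|)) ∧
    -- increasing coefficients
    (∀ a : ℕ → ℝ, Tendsto (fun k => |a k|) atTop atTop →
      (Summable fun k => weight (a k) (a (k + 1))) →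
      ∀ T : ℕ → Torus → Torus, (∀ k, IsStandardMap (a k) (T k)) →
      -- mixing, uniformly in the starting time
      (∀ F G : Torus → ℝ, MemLp F 2 volume → MemLp G 2 volume → ∀ ε : ℝ, 0 < ε →
        ∃ N : ℕ, ∀ m n : ℕ, N ≤ n →
          |(∫ p : Torus, F (compose T m n p) * G p) - (∫ p, F p) * ∫ p, G p| ≤ ε) ∧
      -- the mean ergodic theorem
      (∀ F : Torus → ℝ, MemLp F 2 volume →
        Tendsto (fun n : ℕ => ∫ p : Torus,
          ((1 / (n : ℝ)) * ∑ k ∈ Finset.range n, F (compose T 0 k p) - ∫ q, F q) ^ 2)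
          atTop (𝓝 0)) ∧
      -- the exponent at almost every point
      (∀ᵐ p : Torus, ∀ x y : ℝ, ((x : UnitAddCircle), (y : UnitAddCircle)) = p →
        Tendsto (fun n => log ‖fderiv ℝ (planeCompose a n) (x, y)‖ /
          ∑ k ∈ Finset.range n, log |a k|) atTop (𝓝 1))) ∧
    -- equidistribution of almost every orbit
    (∀ (a : ℕ → ℝ) (c δ : ℝ), 0 < c → 0 < δ → (∀ᶠ k : ℕ in atTop, c * (k : ℝ) ^ (1 / 2 + δ) ≤ |a k|) →
      (Tendsto (fun k => |a k|) atTop atTop ∧ Summable fun k => weight (a k) (a (k + 1))) ∧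
      ∀ T : ℕ → Torus → Torus, (∀ k, IsStandardMap (a k) (T k)) →
        ∀ᵐ p : Torus, ∀ F : Torus → ℝ, Continuous F →
          Tendsto (fun n : ℕ => 1 / (n : ℝ) * ∑ k ∈ Finset.range n, F (compose T 0 k p)) atTop
            (𝓝 (∫ q, F q))) := by
  have hpc : ∀ (a : ℕ → ℝ) (n : ℕ), planeCompose a n = H52.STD.pc a n := by
    intro a n
    induction n with
    | zero => rfl
    | succ n ih =>
      funext z
      show planeMap (a n) (planeCompose a n z) = H52.STD.pm (a n) (H52.STD.pc a n z)
      rw [ih]
      rfl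
  have hcomp : ∀ (a : ℕ → ℝ) (T : ℕ → Torus → Torus), (∀ k, IsStandardMap (a k) (T k)) →
      ∀ m n p, compose T m n p = H52.STD.cs (H52.STD.sh a m) n p := by
    intro a T hT m n p
    have hTS : ∀ k, T k = Pool.Agent.TH705.SM.S (a k) := fun k => H52.STD.std_eq (hT k)
    induction n with
    | zero => rfl
    | succ n ih =>
      show T (m + n) (compose T m n p) =
        Pool.Agent.TH705.SM.S (H52.STD.sh a m n) (H52.STD.cs (H52.STD.sh a m) n p)
      rw [ih, hTS]
      rfl
  have hsh0 : ∀ a : ℕ → ℝ, H52.STD.sh a 0 = a := by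
    intro a
    funext k
    show a (0 + k) = a k
    rw [zero_add]
  refine ⟨?_, ?_, ?_⟩
  · obtain ⟨K, hK0, hK⟩ := H52.STD.sq_est
    refine ⟨2 * K, fun a n hn ha T hT M f g u v hM hf hg hu hv => ?_⟩
    have hf' : H52.STD.Sm1 f := ⟨hf.smooth, hf.bound⟩
    have hg' : H52.STD.Sm1 g := ⟨hg.smooth, hg.bound⟩
    have hu' : H52.STD.Sm1 u := ⟨hu.smooth, hu.bound⟩
    have hv' : H52.STD.Sm1 v := ⟨hv.smooth, hv.bound⟩
    have hb : ∀ p : Torus, |u p.1 * v p.2| ≤ 1 := by
      intro p
      rw [abs_mul]
      exact mul_le_one₀ (hu.bound _) (abs_nonneg _) (hv.bound _)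
    have hN : ∀ y t, |H52.STD.lw (fun p : Torus => u p.1 * v p.2) y t| ≤ M := by
      intro y t
      have h1 := H52.STD.lw_hasDeriv (H52.STD.smo_prod hu' hv') y t
      have h2 : HasDerivAt (fun t : ℝ => u (t : UnitAddCircle) * v (y : UnitAddCircle))
          (deriv (fun s : ℝ => u (s : UnitAddCircle)) t * v (y : UnitAddCircle)) t :=
        ((hu.smooth.differentiable one_ne_zero) t).hasDerivAt.mul_const _
      have h3 := h1.unique h2
      rw [h3, abs_mul]
      have h4 := mul_le_mul (hu.deriv_bound t) (hv.bound (y : UnitAddCircle)) (abs_nonneg _) hM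
      linarith
    have key := hK a n hn ha f g hf' hg' M M hM hM hg.deriv_bound _ (H52.STD.smo_prod hu' hv') hb hN
    have e1 : ∫ p : Torus, u p.1 * v p.2 = (∫ x, u x) * ∫ x, v x := integral_prod_mul u v
    rw [e1] at key
    simp_rw [hcomp a T hT, hsh0]
    refine key.trans ?_
    have hr := H52.STD.rate_nonneg a n
    have h2 : (1 / 2 : ℝ) ^ n ≤ 1 := pow_le_one₀ (by norm_num) (by norm_num)
    have h3 : K * (1 + M + M * (1 / 2) ^ n) ≤ 2 * K * (1 + M) := by
      have : M * (1 / 2 : ℝ) ^ n ≤ M * 1 := mul_le_mul_of_nonneg_left h2 hM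
      have h5 := mul_le_mul_of_nonneg_left this hK0
      nlinarith
    exact mul_le_mul_of_nonneg_right h3 hr
  · intro a hinf hs T hT
    have ha : H52.STD.Inc2 a := ⟨hs, hinf⟩
    refine ⟨?_, ?_, ?_⟩
    · intro F G hF hG ε hε
      obtain ⟨N, hN⟩ := H52.STD.mixing2 ha hF hG hε
      refine ⟨N, fun m n hn => ?_⟩
      simp_rw [hcomp a T hT]
      exact hN m n hn
    · intro F hF
      have h := H52.STD.lln2 ha hF
      simp_rw [hcomp a T hT, hsh0]
      exact h
    · have h := H52.STD.exp_ae ha
      filter_upwards [h] with p hp x y hxy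
      simp_rw [hpc]
      exact hp x y hxy
  · intro a c δ hc hδ hev
    have hP : H52.STD.Pow a := ⟨c, δ, hc, hδ, hev⟩
    have hI := hP.inc
    refine ⟨⟨hI.inf, hI.s⟩, fun T hT => ?_⟩
    filter_upwards [H52.STD.equi_ae hP] with p hp F hF
    simp_rw [hcomp a T hT, hsh0]
    exact hp ⟨F, hF⟩

end Pool.Agent.Results.MP_9ee088_an.BeyondTheStrip
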