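import Pool.Agent.H52.STD.Wd13

set_option autoImplicit false

/-!
# A mixing uniformly hyperbolic set close to everything but a set of area `log² |a| / a²`

Let `S_a (x, y) = (2x - y + a sin 2πx, x)` on the torus, `|a| ≥ 256`; no parameter is excluded. There is
a compact uniformly hyperbolic set `Λ`, with constants which do not depend on `a`, on which `S_a` is
topologically mixing and has dense periodic points, such that all points outside a set `B n` of area
`K (n + log |a|) log |a| / a²` are shadowed from `Λ` at the scale `|a| ^ (-n / 4)`, with the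
specification property.
-/

open Real MeasureTheory Function

namespace Pool.Agent.Results.MP_9ee088_an.HyperbolicSet

/-- The torus `ℝ² / ℤ²`, with its Lebesgue measure `volume` (total mass `1`) and the sup distance. -/
abbrev Torus := UnitAddCircle × UnitAddCircle

/-- `T` is the standard map `S_a` of the torus. -/
def IsStandardMap (a : ℝ) (T : Torus → Torus) : Prop :=
  ∀ x y : ℝ, T ((x : UnitAddCircle), (y : UnitAddCircle)) =
    (((2 * x - y + a * sin (2 * π * x) : ℝ) : UnitAddCircle), (x : UnitAddCircle))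

/-- The lift of the standard map to the plane. -/
noncomputable def planeMap (a : ℝ) (p : ℝ × ℝ) : ℝ × ℝ :=
  (2 * p.1 - p.2 + a * sin (2 * π * p.1), p.1)

/-- The covering map from the plane to the torus. -/
noncomputable def proj (p : ℝ × ℝ) : Torus := ((p.1 : UnitAddCircle), (p.2 : UnitAddCircle))

/-- `Λ` is a uniformly hyperbolic set of `T`: it is compact and invariant, and over `Λ` the tangent
plane is the direct sum of two lines `Es` and `Eu`, invariant under the differential `D T`, with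
`‖D T^k v‖ ≤ 3 * 3 ^ (-k) * ‖v‖` on `Es` and `‖v‖ ≤ 3 * 3 ^ (-k) * ‖D T^k v‖` on `Eu`, for all
`k ≥ 0`. -/
structure UniformlyHyperbolic (a : ℝ) (T : Torus → Torus) (Λ : Set Torus) : Prop where
  isCompact : IsCompact Λ
  invariant : T '' Λ = Λ
  splitting : ∃ Es Eu : Torus → Submodule ℝ (ℝ × ℝ), ∀ p : ℝ × ℝ, proj p ∈ Λ →
    Module.finrank ℝ (Es (proj p)) = 1 ∧ Module.finrank ℝ (Eu (proj p)) = 1 ∧
    IsCompl (Es (proj p)) (Eu (proj p)) ∧
    fderiv ℝ (planeMap a) p '' (Es (proj p)) = Es (T (proj p)) ∧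
    fderiv ℝ (planeMap a) p '' (Eu (proj p)) = Eu (T (proj p)) ∧
    (∀ v ∈ Es (proj p), ∀ k : ℕ, ‖fderiv ℝ (planeMap a)^[k] p v‖ ≤ 3 * (1 / 3) ^ k * ‖v‖) ∧
    (∀ v ∈ Eu (proj p), ∀ k : ℕ, ‖v‖ ≤ 3 * (1 / 3) ^ k * ‖fderiv ℝ (planeMap a)^[k] p v‖)

/-- `T` is topologically mixing on `Λ`, and its periodic points in `Λ` are dense in `Λ`. -/
structure MixingWithDensePeriodicPoints (T : Torus → Torus) (Λ : Set Torus) : Prop where
  mixing : ∀ U V : Set Torus, IsOpen U → IsOpen V → (U ∩ Λ).Nonempty → (V ∩ Λ).Nonempty →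
    ∃ N₀ : ℕ, ∀ N : ℕ, N₀ ≤ N → ∃ q ∈ Λ, q ∈ U ∧ T^[N] q ∈ V
  periodic : Λ ⊆ closure {q | q ∈ Λ ∧ ∃ P : ℕ, 1 ≤ P ∧ T^[P] q = q}

/-- The scale `|a| ^ (-n / 4)`. -/
noncomputable def scale (a : ℝ) (n : ℕ) : ℝ := |a| ^ (-(n : ℝ) / 4)

/-- The area `K (n + log |a|) log |a| / a²`. -/
noncomputable def err (K a : ℝ) (n : ℕ) : ℝ := K * ((n + log |a|) * log |a|) / a ^ 2

theorem rd_eq {a : ℝ} (ha : 256 ≤ |a|) (n : ℕ) : H52.GEO.rd (√|a|) n = scale a n := by
  have ha0 : 0 < |a| := by linarith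
  have h1 : 1 / √√|a| = |a| ^ (-(1:ℝ) / 4) := by
    rw [Real.sqrt_eq_rpow, Real.sqrt_eq_rpow, ← Real.rpow_mul ha0.le, one_div, ← Real.rpow_neg ha0.le]
    norm_num
  unfold scale H52.GEO.rd
  rw [h1, ← Real.rpow_natCast, ← Real.rpow_mul ha0.le]
  congr 1
  ring

theorem hyp {a : ℝ} {Λ : Set Torus} (h1 : IsCompact Λ) (h2 : TH705.SM.S a '' Λ = Λ)
    (h3 : Λ ⊆ H52.GEO.Lam a) : UniformlyHyperbolic a (TH705.SM.S a) Λ := by
  refine ⟨h1, h2, H52.GEO.Es a, H52.GEO.Eu a, ?_⟩
  intro p hp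
  refine ⟨?_, ?_, H52.GEO.splitting (h3 hp)⟩
  · exact finrank_span_singleton (fun h => by simp at h)
  · exact finrank_span_singleton (fun h => by simp at h)

/-- **A mixing uniformly hyperbolic set, off a set of area `log² |a| / a²`, for every `|a| ≥ 256`.** -/
theorem result : ∃ K : ℝ, 0 < K ∧ ∀ a : ℝ, 256 ≤ |a| → ∀ T : Torus → Torus, IsStandardMap a T →
    ∃ (Λ : Set Torus) (B : ℕ → Set Torus),
      UniformlyHyperbolic a T Λ ∧ MixingWithDensePeriodicPoints T Λ ∧
      (∀ n, MeasurableSet (B n) ∧ volume.real (B n) ≤ err K a n) ∧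
      -- (1) specification, for bi-infinite and for periodic sequences of targets
      (∀ (J : Type) (s : Equiv.Perm J) (p : J → Torus) (n N : J → ℕ), (∀ j, p j ∉ B (n j)) →
        (∀ j, K * (n j + n (s j) + log |a|) + |(n j : ℝ) - n (s j)| * log |a| ≤ N j) →
        ∃ q : J → Torus, ∀ j, q j ∈ Λ ∧ dist (q j) (p j) ≤ scale a (n j) ∧
          T^[N j] (q j) = q (s j)) ∧
      -- (2) periodic points of all large periods, and periodic orbits close to all targets
      (∀ n p, p ∉ B n → ∀ N : ℕ, K * (n + log |a|) ≤ N →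
        ∃ q ∈ Λ, dist q p ≤ scale a n ∧ T^[N] q = q) ∧
      (∀ p, ∀ N : ℕ, K * log |a| ≤ N → ∃ q ∈ Λ, dist q p ≤ K * log |a| / |a| ∧ T^[N] q = q) ∧
      (∀ n, ∃ q ∈ Λ, ∃ P : ℕ, 1 ≤ P ∧ T^[P] q = q ∧
        ∀ p, p ∉ B n → ∃ k, dist (T^[k] q) p ≤ scale a n) ∧
      -- (3) one orbit, dense in `Λ`
      ∃ q ∈ Λ, Λ ⊆ closure (Set.range fun k : ℕ => T^[k] q) ∧
        (∀ n p, p ∉ B n → ∀ m : ℕ, ∃ k, m ≤ k ∧ dist (T^[k] q) p ≤ scale a n) ∧
        ∀ p, ∀ m : ℕ, ∃ k, m ≤ k ∧ dist (T^[k] q) p ≤ K * log |a| / |a| := by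
  refine ⟨10 ^ 35, by norm_num, ?_⟩
  intro a ha T hT
  have hTS : T = TH705.SM.S a := TH705.SM.eq_S a T hT
  have hL := H52.GEO.log_ge ha
  have ha0 : 0 < |a| := by linarith
  have hsq : a ^ 2 = |a| ^ 2 := (sq_abs a).symm
  have hsc : ∀ n, H52.GEO.rd (√|a|) n = scale a n := rd_eq ha
  have hsc0 : ∀ n, 0 < scale a n := fun n => by
    rw [← hsc]
    exact H52.GEO.rd_pos (H52.GEO.sq_ge ha) _
  rw [hTS]
  by_cases hsm : 1 ≤ 10 ^ 35 * log |a| ^ 2 / |a| ^ 2
  · -- the trivial range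
    have hfix : TH705.SM.S a (((0:ℝ) : UnitAddCircle), ((0:ℝ) : UnitAddCircle)) =
        (((0:ℝ) : UnitAddCircle), ((0:ℝ) : UnitAddCircle)) := by
      rw [TH705.SM.S_coe]
      simp
    obtain ⟨o, ho⟩ : ∃ o : Torus, o = (((0:ℝ) : UnitAddCircle), ((0:ℝ) : UnitAddCircle)) :=
      ⟨_, rfl⟩
    rw [← ho] at hfix
    have hit : ∀ k, (TH705.SM.S a)^[k] o = o := fun k => iterate_fixed hfix k
    have hoL : o ∈ H52.GEO.Lam a := by
      rw [ho]
      exact H52.GEO.zero_Lam ha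
    have hbig : (1:ℝ) / 2 ≤ 10 ^ 35 * log |a| / |a| := by
      have h1 : log |a| ≤ |a| := by
        have := Real.log_le_sub_one_of_pos ha0
        linarith
      have h2 : 10 ^ 35 * log |a| ^ 2 / |a| ^ 2 = (10 ^ 35 * log |a| / |a|) * (log |a| / |a|) := by
        field_simp
      have h3 : log |a| / |a| ≤ 1 := by
        rw [div_le_one ha0]
        exact h1
      have h4 : 0 ≤ 10 ^ 35 * log |a| / |a| := by positivity
      rw [h2] at hsm
      have h5 := mul_le_mul_of_nonneg_left h3 h4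
      linarith
    have hd : ∀ p : Torus, dist o p ≤ 10 ^ 35 * log |a| / |a| :=
      fun p => (H52.GEO.dist_half _ _).trans hbig
    refine ⟨{o}, fun _ => Set.univ, hyp isCompact_singleton (by rw [Set.image_singleton, hfix])
      (Set.singleton_subset_iff.2 hoL), ⟨?_, ?_⟩, ?_, ?_, ?_, ?_, ?_, ?_⟩
    · rintro U V _ _ ⟨x, hx, rfl⟩ ⟨y, hy, hyx⟩
      refine ⟨0, fun N _ => ⟨x, rfl, hx, ?_⟩⟩
      rw [hit]
      rw [Set.mem_singleton_iff] at hyx
      rwa [← hyx]
    · intro x hx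
      rw [Set.mem_singleton_iff] at hx
      rw [hx]
      exact subset_closure ⟨rfl, 1, le_rfl, hit 1⟩
    · intro n
      refine ⟨MeasurableSet.univ, ?_⟩
      rw [probReal_univ]
      refine hsm.trans ?_
      unfold err
      rw [hsq]
      apply div_le_div_of_nonneg_right _ (by positivity)
      apply mul_le_mul_of_nonneg_left _ (by norm_num)
      have h4 : (0:ℝ) ≤ n := Nat.cast_nonneg _
      have h5 : 0 ≤ (n:ℝ) * log |a| := by positivity
      rw [pow_two, add_mul]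
      linarith
    · intro J s p n N hp _
      exact ⟨fun _ => o, fun j => absurd (Set.mem_univ _) (hp j)⟩
    · intro n p hp
      exact absurd (Set.mem_univ _) hp
    · intro p N _
      exact ⟨o, rfl, hd p, hit N⟩
    · intro n
      exact ⟨o, rfl, 1, le_rfl, hit 1, fun p hp => absurd (Set.mem_univ _) hp⟩
    · refine ⟨o, rfl, ?_, ?_, ?_⟩
      · intro x hx
        rw [Set.mem_singleton_iff] at hx
        rw [hx]
        exact subset_closure ⟨0, rfl⟩
      · intro n p hp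
        exact absurd (Set.mem_univ _) hp
      · intro p m
        refine ⟨m, le_rfl, ?_⟩
        rw [hit]
        exact hd p
  · -- the main case
    rw [not_le] at hsm
    obtain ⟨Zf, z1, z2, z3, z4⟩ := H52.GEO.Zf_ex ha
    have hZ : H52.GEO.Coding a Zf := ⟨z1, z2, z3, z4⟩
    have hρ : 10 ^ 17 * log |a| / |a| ≤ 10 ^ 35 * log |a| / |a| := by
      apply div_le_div_of_nonneg_right _ ha0.le
      apply mul_le_mul_of_nonneg_right (by norm_num) (by linarith)
    have hsmall : 10 ^ 17 * log |a| / |a| < 1 / 2 := by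
      apply lt_of_pow_lt_pow_left₀ 2 (by norm_num)
      have e : (10 ^ 17 * log |a| / |a|) ^ 2 = 1 / 10 * (10 ^ 35 * log |a| ^ 2 / |a| ^ 2) := by
        field_simp
      rw [e]
      linarith
    have hnear8 := H52.GEO.near_good ha hsmall
    have h8 := H52.GEO.rd_eight ha
    have hmix : ∀ U V : Set Torus, IsOpen U → IsOpen V →
        (U ∩ closure (H52.GEO.L0 a Zf)).Nonempty → (V ∩ closure (H52.GEO.L0 a Zf)).Nonempty →
        ∃ N₀ : ℕ, ∀ N : ℕ, N₀ ≤ N → ∃ q ∈ closure (H52.GEO.L0 a Zf), q ∈ U ∧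
          (TH705.SM.S a)^[N] q ∈ V :=
      fun U V hU hV hUn hVn => H52.GEO.mixing ha hZ hU hV hUn hVn
    have hcl : IsCompact (closure (H52.GEO.L0 a Zf)) := isClosed_closure.isCompact
    have hsub : closure (H52.GEO.L0 a Zf) ⊆ H52.GEO.Lam a :=
      closure_minimal (H52.GEO.L0_sub hZ) (H52.GEO.Lam_compact a).isClosed
    have hper : ∀ n p, p ∉ H52.GEO.BC a n → ∀ N : ℕ, 10 ^ 35 * (n + log |a|) ≤ N →
        ∃ q ∈ closure (H52.GEO.L0 a Zf), dist q p ≤ scale a n / 2 ∧
          (TH705.SM.S a)^[N] q = q := by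
      intro n p hp N hN
      rw [← hsc]
      apply H52.GEO.periodic2 ha hZ hp
      refine le_trans ?_ hN
      have h4 : (0:ℝ) ≤ n := Nat.cast_nonneg _
      exact mul_le_mul_of_nonneg_right (by norm_num) (by linarith)
    have hper8 : ∀ p, ∀ N : ℕ, 10 ^ 35 * log |a| ≤ N → ∃ q ∈ closure (H52.GEO.L0 a Zf),
        dist q p ≤ 10 ^ 17 * log |a| / |a| ∧ (TH705.SM.S a)^[N] q = q := by
      intro p N hN
      obtain ⟨y, hy1, hy2⟩ := hnear8 p
      obtain ⟨z, h1, h2, h3⟩ := H52.GEO.periodic2 ha hZ hy2 (N := N) (by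
        refine le_trans ?_ hN
        push_cast
        linarith)
      refine ⟨z, h1, ?_, h3⟩
      have h9 := H52.GEO.rd_nonneg (√|a|) 8
      calc dist z p ≤ dist z y + dist y p := dist_triangle _ _ _
        _ ≤ _ := by
          rw [dist_comm y p]
          linarith
    obtain ⟨N8, hN8⟩ := exists_nat_ge (10 ^ 35 * log |a|)
    have hN81 : 1 ≤ N8 := by
      have : (0:ℝ) < N8 := by
        have : 0 < 10 ^ 35 * log |a| := by positivity
        linarith
      exact_mod_cast this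
    obtain ⟨q8, hq8, _, hq8'⟩ := hper8 0 N8 hN8
    refine ⟨closure (H52.GEO.L0 a Zf), H52.GEO.BC a, hyp hcl (H52.GEO.clL_image ha hZ) hsub,
      ⟨hmix, ?_⟩, ?_, ?_, ?_, ?_, ?_, ?_⟩
    · intro x hx
      rw [_root_.mem_closure_iff]
      intro U hU hxU
      obtain ⟨z, g1, g2, g3⟩ := H52.GEO.per_dense ha hZ hU ⟨x, hxU, hx⟩
      exact ⟨z, g2, g1, g3⟩
    · intro n
      refine ⟨H52.GEO.BC_meas a n, ?_⟩
      have h0 := H52.GEO.ar_nonneg ha n
      have h1 := ENNReal.toReal_le_of_le_ofReal (by positivity) (H52.GEO.BC_vol ha n)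
      refine h1.trans ?_
      have h2 : err (10 ^ 35) a n = 10 ^ 35 * H52.GEO.ar a n := by
        unfold err H52.GEO.ar
        rw [hsq]
        ring
      rw [h2]
      exact mul_le_mul_of_nonneg_right (by norm_num) h0
    · intro J s p n N hp hN
      obtain ⟨Z, hZ'⟩ := H52.GEO.spec2 hZ s p n N hp (fun j => by
        refine le_trans ?_ (hN j)
        have h4 : (0:ℝ) ≤ n j := Nat.cast_nonneg _
        have h5 : (0:ℝ) ≤ n (s j) := Nat.cast_nonneg _
        have h6 : 3600 * ((n j : ℝ) + n (s j) + log |a|) ≤ 10 ^ 35 * (n j + n (s j) + log |a|) :=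
          mul_le_mul_of_nonneg_right (by norm_num) (by linarith)
        linarith)
      refine ⟨Z, fun j => ⟨(hZ' j).1, (hZ' j).2.1.trans ?_, (hZ' j).2.2⟩⟩
      rw [hsc]
      linarith [hsc0 (n j)]
    · intro n p hp N hN
      obtain ⟨z, h1, h2, h3⟩ := hper n p hp N hN
      exact ⟨z, h1, h2.trans (by linarith [hsc0 n]), h3⟩
    · intro p N hN
      obtain ⟨z, h1, h2, h3⟩ := hper8 p N hN
      exact ⟨z, h1, h2.trans hρ, h3⟩
    · intro n
      by_cases hne : ∃ p, p ∉ H52.GEO.BC a n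
      · obtain ⟨z, h1, P, h2, h3, h4⟩ := H52.GEO.periodic_dense2 ha hZ hne
        refine ⟨z, h1, P, h2, h3, fun p hp => ?_⟩
        rw [← hsc]
        exact h4 p hp
      · exact ⟨q8, hq8, N8, hN81, hq8', fun p hp => absurd ⟨p, hp⟩ hne⟩
    · obtain ⟨q, hq, hd⟩ := H52.GEO.dense_orbit hcl ⟨q8, hq8⟩ hmix
      refine ⟨q, hq, ?_, ?_, ?_⟩
      · intro x hx
        rw [_root_.mem_closure_iff]
        intro U hU hxU
        obtain ⟨k, _, hk⟩ := hd U hU ⟨x, hxU, hx⟩ 0
        exact ⟨_, hk, k, rfl⟩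
      · intro n p hp m
        obtain ⟨N, hN⟩ := exists_nat_ge (10 ^ 35 * ((n:ℝ) + log |a|))
        obtain ⟨z, h1, h2, _⟩ := hper n p hp N hN
        obtain ⟨k, hk, hk'⟩ := hd (Metric.ball z (scale a n / 2)) Metric.isOpen_ball
          ⟨z, Metric.mem_ball_self (by linarith [hsc0 n]), h1⟩ m
        rw [Metric.mem_ball] at hk'
        refine ⟨k, hk, ?_⟩
        calc dist ((TH705.SM.S a)^[k] q) p ≤ dist ((TH705.SM.S a)^[k] q) z + dist z p :=
              dist_triangle _ _ _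
          _ ≤ _ := by linarith
      · intro p m
        obtain ⟨z, h1, h2, _⟩ := hper8 p N8 hN8
        have hρ1 : 0 < 10 ^ 17 * log |a| / |a| := by positivity
        obtain ⟨k, hk, hk'⟩ := hd (Metric.ball z (10 ^ 17 * log |a| / |a|)) Metric.isOpen_ball
          ⟨z, Metric.mem_ball_self hρ1, h1⟩ m
        rw [Metric.mem_ball] at hk'
        refine ⟨k, hk, ?_⟩
        have h5 : 2 * (10 ^ 17 * log |a| / |a|) ≤ 10 ^ 35 * log |a| / |a| := by
          rw [← mul_div_assoc]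
          apply div_le_div_of_nonneg_right _ ha0.le
          rw [← mul_assoc]
          apply mul_le_mul_of_nonneg_right (by norm_num) (by linarith)
        calc dist ((TH705.SM.S a)^[k] q) p ≤ dist ((TH705.SM.S a)^[k] q) z + dist z p :=
              dist_triangle _ _ _
          _ ≤ _ := by linarith

end Pool.Agent.Results.MP_9ee088_an.HyperbolicSet
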