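import Pool.Agent.H52.STD.Wc3

set_option autoImplicit false

/-!
# Invariant sets, islands and eigenfunctions of the standard map, for every large parameter

Let `S_a (x, y) = (2x - y + a sin 2πx, x)` on the torus, `|a| ≥ 256`; NO parameter is excluded.  For
some parameters, for example near the integers, there are elliptic islands of area about `a⁻²`.  Here:
up to sets of area `O(log² |a| / a²)` there is no other obstruction to ergodicity among the sets and
functions which can be seen at scales `|a| ^ (-n / 4)` with `n` up to about `a² / log |a|`: sets with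
boundaries of length up to `exp (c a²)`, open sets, islands, Lipschitz eigenfunctions.
-/

open Real MeasureTheory Function
open scoped ENNReal

namespace Pool.Agent.Results.MP_9ee088_an.UpToIslands

/-- The torus `ℝ² / ℤ²`, with its Lebesgue measure `volume` (total mass `1`) and the sup distance. -/
abbrev Torus := UnitAddCircle × UnitAddCircle

/-- `T` is the standard map `S_a` of the torus. -/
def IsStandardMap (a : ℝ) (T : Torus → Torus) : Prop :=
  ∀ x y : ℝ, T ((x : UnitAddCircle), (y : UnitAddCircle)) =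
    (((2 * x - y + a * sin (2 * π * x) : ℝ) : UnitAddCircle), (x : UnitAddCircle))

/-- The covering map from the plane to the torus. -/
noncomputable def proj (p : ℝ × ℝ) : Torus := ((p.1 : UnitAddCircle), (p.2 : UnitAddCircle))

/-- The scale `|a| ^ (-n / 4)`. -/
noncomputable def scale (a : ℝ) (n : ℕ) : ℝ := |a| ^ (-(n : ℝ) / 4)

/-- The area `K (n + log |a|) log |a| / a²`. -/
noncomputable def err (K a : ℝ) (n : ℕ) : ℝ := K * ((n + log |a|) * log |a|) / a ^ 2

/-- `D` is a returning domain: an open connected (possibly empty) set such that every `T^k(D)` is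
equal to `D` or disjoint from `D`. For instance a connected component of an invariant open set, or a
periodic domain disjoint from its other images. -/
structure Returning (T : Torus → Torus) (D : Set Torus) : Prop where
  isOpen : IsOpen D
  isPreconnected : IsPreconnected D
  returns : ∀ k : ℕ, T^[k] '' D = D ∨ Disjoint (T^[k] '' D) D

/-- `D` is an island: a returning domain whose full preimage in the plane is not connected. For
instance a periodic disc, or a periodic essential annulus. -/
structure Island (T : Torus → Torus) (D : Set Torus) : Prop where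
  returning : Returning T D
  lift : ¬ IsConnected (proj ⁻¹' D)

/-- `D` is large, with respect to the exceptional sets `B m`: it is invariant, its full preimage in
the plane is connected, and it comes `scale a m`-close to all points outside `B m`. -/
structure Large (a : ℝ) (T : Torus → Torus) (B : ℕ → Set Torus) (D : Set Torus) : Prop where
  invariant : T ⁻¹' D = D
  lift : IsConnected (proj ⁻¹' D)
  near : ∀ m, ∀ q, q ∉ B m → (Metric.closedBall q (scale a m) ∩ D).Nonempty

theorem rd_eq {a : ℝ} (ha : 256 ≤ |a|) (n : ℕ) : H52.GEO.rd (√|a|) n = scale a n := by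
  have ha0 : 0 < |a| := by linarith
  have h1 : 1 / √√|a| = |a| ^ (-(1:ℝ) / 4) := by
    rw [Real.sqrt_eq_rpow, Real.sqrt_eq_rpow, ← Real.rpow_mul ha0.le, one_div, ← Real.rpow_neg ha0.le]
    norm_num
  unfold scale H52.GEO.rd
  rw [h1, ← Real.rpow_natCast, ← Real.rpow_mul ha0.le]
  congr 1
  ring

theorem real_le {X : Set Torus} {c : ℝ} (hc : 0 ≤ c) (h : volume X ≤ ENNReal.ofReal c) :
    volume.real X ≤ c := ENNReal.toReal_le_of_le_ofReal hc h

theorem min_real {X Y : Set Torus} {c : ℝ} (hc : 0 ≤ c)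
    (h : min (volume X) (volume Y) ≤ ENNReal.ofReal c) : min (volume.real X) (volume.real Y) ≤ c := by
  rcases min_le_iff.1 h with h1 | h1
  · exact (min_le_left _ _).trans (real_le hc h1)
  · exact (min_le_right _ _).trans (real_le hc h1)

theorem add_real {Z : Set Torus} {c c' : ℝ} (hc : 0 ≤ c) (hcc : c ≤ c') {X : Set Torus}
    (h : volume X ≤ ENNReal.ofReal c + volume Z) : volume.real X ≤ c' + volume.real Z := by
  have e : ENNReal.ofReal c + volume Z = ENNReal.ofReal (c + volume.real Z) := by
    rw [ENNReal.ofReal_add hc measureReal_nonneg, ofReal_measureReal (measure_ne_top _ _)]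
  rw [e] at h
  have h1 := real_le (by positivity) h
  linarith

/-- **Invariant sets, islands and eigenfunctions of the standard map, for every `|a| ≥ 256`.** -/
theorem result : ∃ K : ℝ, 0 < K ∧ ∀ a : ℝ, 256 ≤ |a| → ∀ T : Torus → Torus, IsStandardMap a T →
    ∃ B : ℕ → Set Torus,
      (∀ n, MeasurableSet (B n) ∧ volume.real (B n) ≤ err K a n) ∧
      -- (1) sets invariant under a power, up to null sets
      (∀ k : ℕ, 1 ≤ k → ∀ A : Set Torus, MeasurableSet A → T^[k] ⁻¹' A =ᵐ[volume] A →
        (∀ n p q, p ∉ B n → q ∉ B n → p ∉ Metric.cthickening (scale a n) (frontier A) →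
          q ∉ Metric.cthickening (scale a n) (frontier A) → (p ∈ A ↔ q ∈ A)) ∧
        (∀ n, min (volume.real A) (volume.real Aᶜ) ≤ err K a n +
          volume.real (Metric.cthickening (scale a n) (frontier A))) ∧
        (∀ ℓ : ℝ, 0 ≤ ℓ → Measure.hausdorffMeasure 1 (frontier A) ≤ ENNReal.ofReal ℓ →
          min (volume.real A) (volume.real Aᶜ) ≤ K * (log |a| ^ 2 + log (2 + ℓ)) / a ^ 2)) ∧
      -- (2) islands, and other returning domains
      (∀ n, {p | ∃ D, Island T D ∧ Metric.closedBall p (scale a n) ⊆ D} ⊆ B n) ∧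
      (∀ D, Returning T D → ∀ n p, p ∉ B n → Metric.closedBall p (scale a n) ⊆ D →
        Large a T B D) ∧
      -- (3) the components of an invariant open set
      (∀ V : Set Torus, IsOpen V → T ⁻¹' V = V → ∃ V₀ ⊆ V,
        (V₀ = ∅ ∨ (∃ p ∈ V, V₀ = connectedComponentIn V p) ∧ Large a T B V₀) ∧
        (∀ n, volume.real (V \ V₀) ≤ err K a n +
          volume.real (Metric.cthickening (scale a n) (frontier V))) ∧
        (∀ ℓ : ℝ, 0 ≤ ℓ → Measure.hausdorffMeasure 1 (frontier V) ≤ ENNReal.ofReal ℓ →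
          volume.real (V \ V₀) ≤ K * (log |a| ^ 2 + log (2 + ℓ)) / a ^ 2)) ∧
      -- (4) eigenfunctions
      (∀ k : ℕ, 1 ≤ k → ∀ (f : Torus → ℂ) (Λ : ℝ) (z : ℂ), (∀ p q, ‖f p - f q‖ ≤ Λ * dist p q) →
        ‖z‖ = 1 → (∀ p, f (T^[k] p) = z * f p) →
        (z = 1 → ∀ n p q, p ∉ B n → q ∉ B n → ‖f p - f q‖ ≤ 2 * Λ * scale a n) ∧
        ∀ n p, p ∉ B n → ‖z - 1‖ * ‖f p‖ ≤ 4 * Λ * scale a n) := by
  refine ⟨10 ^ 34, by norm_num, ?_⟩
  intro a ha T hT
  have hTS : T = TH705.SM.S a := TH705.SM.eq_S a T hT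
  have hL := H52.GEO.log_ge ha
  have ha0 : 0 < |a| := by linarith
  have hM := H52.GEO.sq_ge ha
  have haM := H52.GEO.sq_eq a
  have hsq : a ^ 2 = |a| ^ 2 := (sq_abs a).symm
  have herr : ∀ n, err (10 ^ 34) a n = 10 ^ 34 * H52.GEO.ar a n := by
    intro n
    unfold err H52.GEO.ar
    rw [hsq]
    ring
  have har : ∀ n, 0 ≤ H52.GEO.ar a n := H52.GEO.ar_nonneg ha
  have hsc : ∀ n, H52.GEO.rd (√|a|) n = scale a n := rd_eq ha
  have hsc0 : ∀ n, 0 ≤ scale a n := fun n => by
    rw [← hsc]
    exact H52.GEO.rd_nonneg _ _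
  rw [hTS]
  set B := H52.GEO.BB a with hB
  -- transitivity
  have c1 : ∀ n p q, p ∉ B n → q ∉ B n → ∀ N : ℕ, 10 ^ 34 * (n + log |a|) ≤ N →
      ∃ p' q' : Torus, dist p p' ≤ scale a n ∧ dist q q' ≤ scale a n ∧
        (TH705.SM.S a)^[N] p' = q' := by
    intro n p q hp hq N hN
    have h1 : 3600 * ((n:ℝ) + log |a|) ≤ N := by
      refine le_trans ?_ hN
      have h0 : (0:ℝ) ≤ n := Nat.cast_nonneg n
      apply mul_le_mul_of_nonneg_right (by norm_num) (by linarith)
    have h2 := H52.GEO.trans_BB ha hp hq h1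
    rw [hsc] at h2
    exact h2
  -- near
  have hnear : ∀ D : Set Torus, TH705.SM.S a ⁻¹' D = D →
      Y332.SM.HasCurve (Prod.swap ⁻¹' D) → ∀ m q, q ∉ B m →
      (Metric.closedBall q (scale a m) ∩ D).Nonempty := by
    intro D hD hDv m q hq
    obtain ⟨x, hx, hxq⟩ := H52.GEO.near' hM haM hD hDv (H52.GEO.BB_not hq).1
    exact ⟨x, hxq.trans (hsc m).le, hx⟩
  -- returning domains
  have hret : ∀ D, Returning (TH705.SM.S a) D → ∀ n p, p ∉ B n →
      Metric.closedBall p (scale a n) ⊆ D → Large a (TH705.SM.S a) B D := by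
    intro D hD n p hp hpD
    rw [← hsc] at hpD
    obtain ⟨h1, h2, h3, h4⟩ := H52.GEO.returning' hM haM hD.isOpen hD.isPreconnected hD.returns
      hpD (H52.GEO.BB_not hp).1 (H52.GEO.BB_not hp).2
    exact ⟨h1, h4, hnear D h1 h3⟩
  have hK33 : ∀ g : ℝ, 0 ≤ g → 10 ^ 33 * (log |a| ^ 2 + g) / |a| ^ 2 ≤
      10 ^ 34 * (log |a| ^ 2 + g) / a ^ 2 := by
    intro g hg
    rw [hsq]
    apply div_le_div_of_nonneg_right _ (by positivity)
    apply mul_le_mul_of_nonneg_right (by norm_num) (by positivity)
  have hlog : ∀ ℓ : ℝ, 0 ≤ ℓ → 0 ≤ log (2 + ℓ) := fun ℓ hℓ => Real.log_nonneg (by linarith)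
  refine ⟨B, ?_, ?_, ?_, hret, ?_, ?_⟩
  · intro n
    refine ⟨H52.GEO.BB_meas a n, ?_⟩
    have h1 := real_le (mul_nonneg (by norm_num) (har n)) (H52.GEO.BB_vol ha n)
    rw [herr]
    refine h1.trans (mul_le_mul_of_nonneg_right (by norm_num) (har n))
  · intro k hk A hAm hA
    refine ⟨?_, ?_, ?_⟩
    · intro n p q hp hq hp' hq'
      rw [← hsc] at hp' hq'
      exact ⟨H52.GEO.side ha hk hAm hA hp hq hp' hq', H52.GEO.side ha hk hAm hA hq hp hq' hp'⟩
    · intro n
      have h := H52.GEO.min_thick ha hk hAm hA n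
      have h0 : (10:ℝ) ^ 32 * H52.GEO.ar a n ≤ err (10 ^ 34) a n := by
        rw [herr]
        exact mul_le_mul_of_nonneg_right (by norm_num) (har n)
      have h00 : 0 ≤ (10:ℝ) ^ 32 * H52.GEO.ar a n := mul_nonneg (by norm_num) (har n)
      rw [hsc] at h
      rcases min_le_iff.1 h with h1 | h1
      · exact (min_le_left _ _).trans (add_real h00 h0 h1)
      · exact (min_le_right _ _).trans (add_real h00 h0 h1)
    · intro ℓ hℓ hF
      have h := H52.GEO.min_len ha hk hAm hA hℓ hF
      have hg := hlog ℓ hℓ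
      exact (min_real (by positivity) h).trans (hK33 _ hg)
  · rintro n p ⟨D, hD, hpD⟩
    by_contra hp
    exact hD.lift (hret D hD.returning n p hp hpD).lift
  · intro V hVo hV
    obtain ⟨V₀, hV₀, hor, hsmall⟩ := H52.GEO.structure_open' hM haM hVo hV (H52.STD.W0 a)
    refine ⟨V₀, hV₀, ?_, ?_, ?_⟩
    · rcases hor with h | ⟨h1, h2, _, h4, h5⟩
      · exact Or.inl h
      · exact Or.inr ⟨h2, h1, h5, hnear V₀ h1 h4⟩
    · intro n
      have h := H52.GEO.small_thick ha hsmall n
      have h0 : (10:ℝ) ^ 32 * H52.GEO.ar a n ≤ err (10 ^ 34) a n := by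
        rw [herr]
        exact mul_le_mul_of_nonneg_right (by norm_num) (har n)
      have h00 : 0 ≤ (10:ℝ) ^ 32 * H52.GEO.ar a n := mul_nonneg (by norm_num) (har n)
      rw [hsc] at h
      exact add_real h00 h0 h
    · intro ℓ hℓ hF
      have h := H52.GEO.small_len ha hsmall hℓ hF
      have hg := hlog ℓ hℓ
      exact (real_le (by positivity) h).trans (hK33 _ hg)
  · intro k hk f Λ z hf hz hfz
    have hit : ∀ (j : ℕ) p, f ((TH705.SM.S a)^[k * j] p) = z ^ j * f p := by
      intro j
      induction j with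
      | zero => intro p; simp
      | succ j ih =>
        intro p
        rw [Nat.mul_succ, iterate_add_apply, ih, hfz, pow_succ]
        ring
    have key : ∀ n p q, p ∉ B n → q ∉ B n → ∀ j : ℕ, 10 ^ 34 * (n + log |a|) ≤ ((k * j : ℕ) : ℝ) →
        ‖z ^ j * f p - f q‖ ≤ 2 * Λ * scale a n := by
      intro n p q hp hq j hj
      obtain ⟨p', q', h1, h2, h3⟩ := c1 n p q hp hq (k * j) hj
      have hΛ : 0 ≤ Λ := by
        have h5 := (norm_nonneg _).trans (hf ((0 : ℝ), (0 : ℝ)) (((1 / 2 : ℝ) : UnitAddCircle), (0 : ℝ)))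
        by_contra hneg
        rw [not_le] at hneg
        have hd : 0 < dist (((0 : ℝ) : UnitAddCircle), ((0 : ℝ) : UnitAddCircle))
            ((((1 / 2 : ℝ) : UnitAddCircle)), ((0 : ℝ) : UnitAddCircle)) := by
          rw [dist_pos]
          intro he
          rw [Prod.mk.injEq] at he
          have h6 : ((1 / 2 : ℝ) : UnitAddCircle) = 0 := by
            rw [← he.1]
            simp
          rw [AddCircle.coe_eq_zero_iff] at h6
          obtain ⟨m, hm⟩ := h6
          rw [zsmul_eq_mul, mul_one] at hm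
          have h7 : ((2 * m : ℤ) : ℝ) = ((1 : ℤ) : ℝ) := by
            push_cast
            linarith
          have h8 : 2 * m = 1 := by exact_mod_cast h7
          omega
        have := mul_neg_of_neg_of_pos hneg hd
        linarith
      have e : z ^ j * f p - f q = z ^ j * (f p - f p') - (f q - f q') := by
        rw [← h3, hit]
        ring
      rw [e]
      refine (norm_sub_le _ _).trans ?_
      rw [norm_mul, norm_pow, hz, one_pow, one_mul]
      have g1 := (hf p p').trans (mul_le_mul_of_nonneg_left h1 hΛ)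
      have g2 := (hf q q').trans (mul_le_mul_of_nonneg_left h2 hΛ)
      linarith
    have hj : ∀ n : ℕ, ∃ j : ℕ, 10 ^ 34 * (n + log |a|) ≤ ((k * j : ℕ) : ℝ) := by
      intro n
      obtain ⟨j, hj⟩ := exists_nat_ge (10 ^ 34 * (n + log |a|))
      refine ⟨j, hj.trans ?_⟩
      exact_mod_cast Nat.le_mul_of_pos_left j hk
    refine ⟨?_, ?_⟩
    · intro hz1 n p q hp hq
      obtain ⟨j, hj1⟩ := hj n
      have h := key n p q hp hq j hj1
      rw [hz1, one_pow, one_mul] at h
      exact h
    · intro n p hp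
      obtain ⟨j, hj1⟩ := hj n
      have h1 := key n p p hp hp j hj1
      have h2 := key n p p hp hp (j + 1) (hj1.trans (by
        exact_mod_cast Nat.mul_le_mul_left k (Nat.le_succ j)))
      have e : ‖z - 1‖ * ‖f p‖ = ‖(z ^ (j + 1) * f p - f p) - (z ^ j * f p - f p)‖ := by
        have e1 : (z ^ (j + 1) * f p - f p) - (z ^ j * f p - f p) = z ^ j * ((z - 1) * f p) := by
          ring
        rw [e1, norm_mul, norm_pow, hz, one_pow, one_mul, norm_mul]
      rw [e]
      refine (norm_sub_le _ _).trans ?_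
      linarith

end Pool.Agent.Results.MP_9ee088_an.UpToIslands
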